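import Pool.Agent.V1153.KB.Cpx

/-!
# The Kobayashi pseudodistance given by holomorphic discs of bounded complexity

Let `X` be a closed subset of the projective space of dimension `n` over the complex numbers, given by
a set `E` of forms of degree at most `D`. For a class `𝒟` of holomorphic maps from the unit disc to
`X` let `kob 𝒟` be the infimum of the lengths, for the Poincaré distance, of the chains of discs from
the class which join two points; for the class of all holomorphic maps (`RDisc E 1`) this is the
Kobayashi pseudodistance of `X`. We say that `X` is hyperbolic for `𝒟` (`KobHyp`) if it is a
distance. `DerBdd 𝒟`: there is a bound for the norms (`fs`) of the derivatives at the centre, for the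
Fubini-Study metric, of all the maps in `𝒟`. We consider two kinds of classes:

`DAlg E m`: the maps all of whose quotients of coordinates are algebraic functions which satisfy an
equation of bidegree at most `(m, m)`;

`DCx E s r e d`: the maps of complexity at most `(s, r, e, d)`: the homogeneous coordinates, in some
open set and up to a common factor, are polynomials of degree at most `e` in each of the functions
`z`, `1 / q(z)` and the entries of the solutions `y_1, ..., y_s` of iterated systems of `r` linear
differential equations, and `q` is a polynomial of degree at most `d`.

We show that `X` is hyperbolic for the classes of each kind, and that the derivatives are bounded for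
each of these classes, if and only if `X` contains no rational curves; for a given complexity it
suffices that there are no rational curves of degree at most `N`, where `N` depends only on `n`, `D`
and the complexity. So these properties hold if all subvarieties of `X` are of general type, or if `X`
is Kobayashi hyperbolic.
-/

set_option autoImplicit false

namespace Pool.Agent.Results.MP_c6ff8d_ag.RestrictedKobayashi

open MvPolynomial Pool.Agent.V1153.UG Pool.Agent.V1153.KB

/-- **(1)** For all `n`, `D` and `(s, r, e, d)` there is a number `N` such that if the projective
variety `X` with the equations `E` of degree at most `D` contains no rational curves of degree at most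
`N`, then the Kobayashi pseudodistance given by the discs of complexity `(s, r, e, d)` is a distance
on `X`, and the derivatives of these discs at the centre are bounded. **(2)** The following are
equivalent: `X` contains no rational curves; for each `m` the pseudodistance given by the algebraic
discs of bidegree at most `(m, m)` is a distance; for each `m` their derivatives are bounded; for all
`(s, r, e, d)` the pseudodistance given by the discs of complexity `(s, r, e, d)` is a distance; for
all `(s, r, e, d)` their derivatives are bounded. **(3)** These properties hold if the Kobayashi
pseudodistance of `X` is a distance, and if all integral closed subvarieties of `X` with more than one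
point are of general type. -/
theorem result (n D : ℕ) :
    (∀ s r e d : ℕ, ∃ N, ∀ E : Set (MvPolynomial (Fin (n + 1)) ℂ),
      (∀ F ∈ E, ∃ a ≤ D, F.IsHomogeneous a) → (∀ P, ¬ GmBdd (Ideal.span E) 1 N P) →
        KobHyp E (DCx E s r e d) ∧ DerBdd (DCx E s r e d)) ∧
    ∀ E : Set (MvPolynomial (Fin (n + 1)) ℂ), (∀ F ∈ E, ∃ a ≤ D, F.IsHomogeneous a) →
      List.TFAE [∀ N P, ¬ GmBdd (Ideal.span E) 1 N P,
        ∀ m, KobHyp E (DAlg E m), ∀ m, DerBdd (DAlg E m),
        ∀ s r e d, KobHyp E (DCx E s r e d), ∀ s r e d, DerBdd (DCx E s r e d)] ∧
      (KobHyp E (RDisc E 1) ∨ AllGeneral E →
        ∀ s r e d, KobHyp E (DCx E s r e d) ∧ DerBdd (DCx E s r e d)) := by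
  refine ⟨fun s r e d => cx_part n D s r e d, fun E hE => ⟨kob_tfae hE, fun h => ?_⟩⟩
  have h1 : ∀ N P, ¬ GmBdd (Ideal.span E) 1 N P := by
    rcases h with h | h
    · refine ((kob_tfae hE).out 0 1).2 fun m x y hx hy hxE hyE hxy => ?_
      exact lt_of_lt_of_le (h x y hx hy hxE hyE hxy) (kob_anti (fun f hf => hf.1) x y)
    · exact no_curves_of_general hE h
  have h2 : ∀ s r e d, KobHyp E (DCx E s r e d) := ((kob_tfae hE).out 0 3).1 h1
  have h3 : ∀ s r e d, DerBdd (DCx E s r e d) := ((kob_tfae hE).out 0 4).1 h1
  exact fun s r e d => ⟨h2 s r e d, h3 s r e d⟩

end Pool.Agent.Results.MP_c6ff8d_ag.RestrictedKobayashi
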